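import Pool.Agent.Q231.LMD.Stubs
import Pool.Agent.H49R2.PC.U0d

set_option autoImplicit false

/-! # LMD: jobs T1 and T3 -/

namespace Pool.Agent.Q10.LMD

open Pool.Agent.NPC Pool.Agent.NPC.Cnt Pool.Agent.H49R2.PC Pool.Agent.Q231.LMD

theorem mem_latS {B : List (List Pt)} {s : Pt} : s ∈ latS B ↔ ∃ b ∈ B, s ∈ b := by
  unfold latS
  rw [List.mem_dedup, List.mem_flatten]

theorem isBl_iff {L : List Pt} {t : Pt × ℕ} {b : List Pt} : isBl L t b = true ↔
    (∀ c ∈ corners t, c ∈ L → c ∈ b) ∧ ∀ c ∈ b, c ∈ corners t := by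
  unfold isBl
  rw [Bool.and_eq_true, List.all_eq_true, List.all_eq_true]
  simp only [decide_eq_true_eq]

theorem mem_triK {B : List (List Pt)} {t : Pt × ℕ} : t ∈ triK B ↔
    (∃ s ∈ latS B, t ∈ cand s) ∧ ∃ b ∈ B, isBl (latS B) t b = true := by
  unfold triK
  rw [List.mem_filter, List.mem_dedup, List.mem_flatMap, List.any_eq_true]

theorem cand_kind {s : Pt} {t : Pt × ℕ} (h : t ∈ cand s) : t.2 < 2 := by
  unfold cand at h
  simp only [List.mem_cons, List.not_mem_nil, or_false] at h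
  rcases h with rfl | rfl | rfl | rfl | rfl | rfl <;> simp

theorem mem_cand {s : Pt} (h1 : 1 ≤ s.1) (h2 : 1 ≤ s.2) {t : Pt × ℕ} (ht : t.2 < 2)
    (hs : s ∈ corners t) : t ∈ cand s := by
  obtain ⟨⟨x, y⟩, k⟩ := t
  obtain ⟨a, b⟩ := s
  unfold corners at hs
  unfold cand
  simp only at h1 h2 ht hs ⊢
  by_cases hk : k = 0
  · subst hk
    simp only [if_true, List.mem_cons, List.not_mem_nil, or_false, Prod.mk.injEq] at hs
    rcases hs with ⟨rfl, rfl⟩ | ⟨rfl, rfl⟩ | ⟨rfl, rfl⟩ <;> simp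
  · have hk1 : k = 1 := by omega
    subst hk1
    simp only [one_ne_zero, if_false, List.mem_cons, List.not_mem_nil, or_false,
      Prod.mk.injEq] at hs
    rcases hs with ⟨rfl, rfl⟩ | ⟨rfl, rfl⟩ | ⟨rfl, rfl⟩ <;> simp

theorem T1_ok : Pool.Agent.Q231.LMD.S_T1 := by
  intro B hB
  refine ⟨?_, ?_, ?_, ?_⟩
  · unfold latS
    exact List.nodup_dedup _
  · unfold triK
    exact (List.nodup_dedup _).filter _
  · intro t ht
    obtain ⟨⟨s, -, h⟩, -⟩ := mem_triK.1 ht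
    exact cand_kind h
  · intro s hs
    obtain ⟨b, hb, hs'⟩ := mem_latS.1 hs
    exact (hB b hb).2.2.1 s hs'

theorem T3_ok : Pool.Agent.Q231.LMD.S_T3 := by
  intro B hB hT
  constructor
  · rintro ⟨I, hI, hb⟩
    refine ⟨I.filter (fun s => s ∈ latS B), ?_, ?_, ?_⟩
    · intro s hs
      exact (Finset.mem_filter.1 hs).2
    · intro s hs t ht
      exact hI s (Finset.mem_filter.1 hs).1 t (Finset.mem_filter.1 ht).1
    · intro t ht
      obtain ⟨-, b, hbB, hbl⟩ := mem_triK.1 ht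
      have h1 := hb b hbB
      have h2 : (b.filter (fun s => decide (s ∈ I))) ≠ [] := by
        intro h0
        rw [h0] at h1
        simp at h1
      obtain ⟨s, hs⟩ := List.exists_mem_of_ne_nil _ h2
      rw [List.mem_filter, decide_eq_true_eq] at hs
      exact ⟨s, (isBl_iff.1 hbl).2 s hs.1, Finset.mem_filter.2 ⟨hs.2, mem_latS.2 ⟨b, hbB, hs.1⟩⟩⟩
  · rintro ⟨I, hIL, hI, hK⟩
    refine ⟨I, hI, ?_⟩
    intro b hbB
    have hle := (Pool.Agent.H49R2.PC.U0d_ok B hB I hI).2.1 b hbB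
    obtain ⟨t, ht2, htb⟩ := hT b hbB
    obtain ⟨hne, -, hpos, -⟩ := hB b hbB
    obtain ⟨s, hs⟩ := List.exists_mem_of_ne_nil _ hne
    have hc := (isBl_iff.1 htb).2 s hs
    have htK : t ∈ triK B := mem_triK.2 ⟨⟨s, mem_latS.2 ⟨b, hbB, hs⟩,
      mem_cand (hpos s hs).1 (hpos s hs).2 ht2 hc⟩, b, hbB, htb⟩
    obtain ⟨c, hc1, hc2⟩ := hK t htK
    have hcb : c ∈ b := (isBl_iff.1 htb).1 c hc1 (hIL c hc2)
    have hpos' : 0 < (b.filter (fun s => decide (s ∈ I))).length := by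
      apply List.length_pos_of_mem (a := c)
      rw [List.mem_filter, decide_eq_true_eq]
      exact ⟨hcb, hc2⟩
    omega

end Pool.Agent.Q10.LMD
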